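import Pool.Agent.J4H7.WP.C
import Pool.Agent.H373R2.NB.Weyl

set_option autoImplicit false

/-!
# Exponential sums with `β (z ^ k + z ^ g)`, the range `X ^ (-1/2) ≤ |β| ≤ X` (helper30), part A

Taylor polynomials and polynomial phases.
-/

namespace Pool.Agent.J4H30.WR

open Finset
open Pool.Agent.J4H7.WE (ff ff_succ ff_ne)
open Pool.Agent.J4H7.WP (SP pow_deriv)
open Pool.Agent.Helper153.Vdc (ee ee_norm)
open Pool.Agent.H373R2.NB (Ph IW IW_all Ph_poly)

lemma Ph_add (d : ℕ) : ∀ (a b : ℝ) (φ ψ : ℕ → ℝ), Ph d a φ → Ph d b ψ → Ph d (a + b) (fun n => φ n + ψ n) := by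
  induction d with
  | zero =>
    intro a b φ ψ h1 h2 n
    show φ n + ψ n = a + b
    rw [h1 n, h2 n]
  | succ d ih =>
    intro a b φ ψ h1 h2 h
    have h3 := ih _ _ _ _ (h1 h) (h2 h)
    show Ph d (h * (a + b)) (fun n => φ (n + h) + ψ (n + h) - (φ n + ψ n))
    have e : (fun n => φ (n + h) + ψ (n + h) - (φ n + ψ n)) = fun n => (φ (n + h) - φ n) + (ψ (n + h) - ψ n) := by
      funext n
      ring
    rw [e, mul_add]
    exact h3

lemma Ph_zero (d : ℕ) : Ph d 0 (fun _ => 0) := by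
  induction d with
  | zero => intro n; rfl
  | succ d ih =>
    intro h
    show Ph d (h * 0) (fun n => (0 : ℝ) - 0)
    simpa using ih

lemma Ph_sum (d m : ℕ) (a : ℕ → ℝ) (φ : ℕ → ℕ → ℝ) (h : ∀ j < m, Ph d (a j) (φ j)) :
    Ph d (∑ j ∈ range m, a j) (fun n => ∑ j ∈ range m, φ j n) := by
  induction m with
  | zero => simpa using Ph_zero d
  | succ m ih =>
    have h1 := Ph_add d _ _ _ _ (ih (fun j hj => h j (by omega))) (h m (by omega))
    rw [sum_range_succ]
    have e : (fun n => ∑ j ∈ range (m + 1), φ j n) = fun n => ∑ j ∈ range m, φ j n + φ m n := by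
      funext n
      rw [sum_range_succ]
    rw [e]
    exact h1

/-- the polynomial phase of the block -/
lemma Ph_block (k r z0 : ℕ) (hk : k < r) (β : ℝ) (c : ℕ → ℝ) :
    Ph r (β * (c r)) (fun n : ℕ => β * ((((z0 : ℝ) + n) ^ k) + ∑ j ∈ range (r + 1), c j * (n : ℝ) ^ j / (j.factorial : ℝ))) := by
  have h1 : Ph r 0 (fun n : ℕ => β * ((z0 : ℝ) + n) ^ k) := by
    have h2 := Ph_poly r ((Polynomial.X + Polynomial.C (z0 : ℤ)) ^ k) (by
      refine (Polynomial.natDegree_pow_le).trans ?_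
      have : (Polynomial.X + Polynomial.C (z0 : ℤ) : Polynomial ℤ).natDegree = 1 := Polynomial.natDegree_X_add_C _
      rw [this]
      omega) β
    have h3 : ((Polynomial.X + Polynomial.C (z0 : ℤ)) ^ k : Polynomial ℤ).coeff r = 0 := by
      apply Polynomial.coeff_eq_zero_of_natDegree_lt
      refine lt_of_le_of_lt Polynomial.natDegree_pow_le ?_
      have : (Polynomial.X + Polynomial.C (z0 : ℤ) : Polynomial ℤ).natDegree = 1 := Polynomial.natDegree_X_add_C _
      rw [this]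
      omega
    rw [h3] at h2
    have e : (fun n : ℕ => β * ((((Polynomial.X + Polynomial.C (z0 : ℤ)) ^ k : Polynomial ℤ).eval (n : ℤ) : ℤ) : ℝ)) =
        fun n : ℕ => β * ((z0 : ℝ) + n) ^ k := by
      funext n
      rw [Polynomial.eval_pow, Polynomial.eval_add, Polynomial.eval_X, Polynomial.eval_C]
      push_cast
      ring
    rw [e] at h2
    simpa using h2
  have h2 : Ph r (∑ j ∈ range (r + 1), if j = r then β * c r else 0)
      (fun n : ℕ => ∑ j ∈ range (r + 1), β * (c j * (n : ℝ) ^ j / (j.factorial : ℝ))) := by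
    apply Ph_sum
    intro j hj
    have h3 := Ph_poly r (Polynomial.X ^ j) (by rw [Polynomial.natDegree_X_pow]; omega) (β * c j / (j.factorial : ℝ))
    have e : (fun n : ℕ => β * c j / (j.factorial : ℝ) * (((Polynomial.X ^ j : Polynomial ℤ).eval (n : ℤ) : ℤ) : ℝ)) =
        fun n : ℕ => β * (c j * (n : ℝ) ^ j / (j.factorial : ℝ)) := by
      funext n
      rw [Polynomial.eval_pow, Polynomial.eval_X]
      push_cast
      ring
    rw [e, Polynomial.coeff_X_pow] at h3
    by_cases hjr : j = r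
    · subst hjr
      rw [if_pos rfl]
      rw [if_pos rfl] at h3
      have hf : ((j.factorial : ℕ) : ℝ) ≠ 0 := by
        exact_mod_cast (Nat.factorial_pos j).ne'
      have e2 : β * c j / (j.factorial : ℝ) * ((j.factorial : ℝ) * ((1 : ℤ) : ℝ)) = β * c j := by
        push_cast
        field_simp
      rw [e2] at h3
      exact h3
    · rw [if_neg hjr]
      rw [if_neg (fun h => hjr h.symm)] at h3
      simpa using h3
  have h3 := Ph_add r _ _ _ _ h1 h2
  rw [zero_add, sum_ite_eq' (range (r + 1)) r, if_pos (mem_range.2 (Nat.lt_succ_self r))] at h3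
  have e : (fun n : ℕ => β * ((z0 : ℝ) + n) ^ k + ∑ j ∈ range (r + 1), β * (c j * (n : ℝ) ^ j / (j.factorial : ℝ))) =
      fun n : ℕ => β * ((((z0 : ℝ) + n) ^ k) + ∑ j ∈ range (r + 1), c j * (n : ℝ) ^ j / (j.factorial : ℝ)) := by
    funext n
    rw [mul_add, mul_sum]
  rw [e] at h3
  exact h3

/-- Taylor's formula, crude form -/
lemma taylor (m : ℕ) : ∀ (G : ℕ → ℝ → ℝ) (R B : ℝ), (∀ i ≤ m, ∀ x ∈ Set.Icc (0 : ℝ) R, HasDerivAt (G i) (G (i + 1) x) x) →
    (∀ x ∈ Set.Icc (0 : ℝ) R, |G (m + 1) x| ≤ B) → ∀ x ∈ Set.Icc (0 : ℝ) R,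
    |G 0 x - ∑ j ∈ range (m + 1), G j 0 * x ^ j / (j.factorial : ℝ)| ≤ B * x ^ (m + 1) := by
  induction m with
  | zero =>
    intro G R B hG hB x hx
    have h1 := Convex.norm_image_sub_le_of_norm_hasDerivWithin_le (f := G 0) (f' := G 1) (s := Set.Icc (0 : ℝ) x) (C := B)
      (x := 0) (y := x)
      (fun y hy => (hG 0 le_rfl y ⟨hy.1, hy.2.trans hx.2⟩).hasDerivWithinAt)
      (fun y hy => hB y ⟨hy.1, hy.2.trans hx.2⟩) (convex_Icc 0 x) ⟨le_rfl, hx.1⟩ ⟨hx.1, le_rfl⟩
    rw [Real.norm_eq_abs, Real.norm_eq_abs, sub_zero, abs_of_nonneg hx.1] at h1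
    simpa using h1
  | succ m ih =>
    intro G R B hG hB x hx
    have hB0 : 0 ≤ B := (abs_nonneg _).trans (hB x hx)
    have h1 := ih (fun i => G (i + 1)) R B (fun i hi x hx => hG (i + 1) (by omega) x hx) hB
    have hder : ∀ y ∈ Set.Icc (0 : ℝ) x, HasDerivWithinAt
        (fun y => G 0 y - ∑ j ∈ range (m + 2), G j 0 * y ^ j / (j.factorial : ℝ))
        (G 1 y - ∑ j ∈ range (m + 1), G (j + 1) 0 * y ^ j / (j.factorial : ℝ)) (Set.Icc 0 x) y := by
      intro y hy
      apply HasDerivAt.hasDerivWithinAt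
      apply (hG 0 (by omega) y ⟨hy.1, hy.2.trans hx.2⟩).sub
      have e : (fun y : ℝ => ∑ j ∈ range (m + 2), G j 0 * y ^ j / (j.factorial : ℝ)) =
          fun y : ℝ => ∑ j ∈ range (m + 1), G (j + 1) 0 * y ^ (j + 1) / ((j + 1).factorial : ℝ) + G 0 0 := by
        funext y
        rw [sum_range_succ']
        simp
      rw [e]
      apply HasDerivAt.add_const
      apply HasDerivAt.fun_sum
      intro j _
      have h2 := ((hasDerivAt_pow (j + 1) y).const_mul (G (j + 1) 0)).div_const (((j + 1).factorial : ℕ) : ℝ)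
      refine h2.congr_deriv ?_
      rw [Nat.factorial_succ]
      have hf : ((j.factorial : ℕ) : ℝ) ≠ 0 := by
        exact_mod_cast (Nat.factorial_pos j).ne'
      have hj : ((j : ℝ) + 1) ≠ 0 := by positivity
      push_cast
      field_simp
    have h3 := Convex.norm_image_sub_le_of_norm_hasDerivWithin_le (s := Set.Icc (0 : ℝ) x) (C := B * x ^ (m + 1))
      (x := 0) (y := x) hder
      (fun y hy => by
        rw [Real.norm_eq_abs]
        refine (h1 y ⟨hy.1, hy.2.trans hx.2⟩).trans ?_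
        apply mul_le_mul_of_nonneg_left _ hB0
        exact pow_le_pow_left₀ hy.1 hy.2 _) (convex_Icc 0 x) ⟨le_rfl, hx.1⟩ ⟨hx.1, le_rfl⟩
    have e0 : G 0 0 - ∑ j ∈ range (m + 2), G j 0 * (0 : ℝ) ^ j / (j.factorial : ℝ) = 0 := by
      rw [sum_range_succ']
      simp
    rw [e0, sub_zero, Real.norm_eq_abs, Real.norm_eq_abs, sub_zero, abs_of_nonneg hx.1, mul_assoc, ← pow_succ] at h3
    exact h3

/-- Taylor's formula for `(z + x) ^ g` -/
lemma taylor_pow (g : ℝ) (r : ℕ) (hgr : g ≤ r) {z : ℝ} (hz : 0 < z) {x : ℝ} (hx : 0 ≤ x) :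
    |(z + x) ^ g - ∑ j ∈ range (r + 1), (ff g j * z ^ (g - j)) * x ^ j / (j.factorial : ℝ)| ≤
      |ff g (r + 1)| * z ^ (g - ((r + 1 : ℕ) : ℝ)) * x ^ (r + 1) := by
  have h := taylor r (fun i x => ff g i * (z + x) ^ (g - i)) x (|ff g (r + 1)| * z ^ (g - ((r + 1 : ℕ) : ℝ)))
    (fun i _ y hy => by
      have h1 : HasDerivAt (fun x : ℝ => z + x) 1 y := (hasDerivAt_id y).const_add z
      have h2 := (pow_deriv g i (z := z + y) (by linarith [hy.1])).comp y h1
      rw [mul_one] at h2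
      exact h2)
    (fun y hy => by
      rw [abs_mul]
      apply mul_le_mul_of_nonneg_left _ (abs_nonneg _)
      have hzy : 0 < z + y := by linarith [hy.1]
      rw [abs_of_pos (Real.rpow_pos_of_pos hzy _)]
      apply Real.rpow_le_rpow_of_nonpos hz (by linarith [hy.1])
      push_cast
      linarith) x ⟨hx, le_rfl⟩
  have e0 : ff g 0 * (z + x) ^ (g - ((0 : ℕ) : ℝ)) = (z + x) ^ g := by
    simp [ff]
  have e1 : ∀ j : ℕ, ff g j * (z + 0) ^ (g - (j : ℝ)) = ff g j * z ^ (g - (j : ℝ)) := by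
    intro j
    rw [add_zero]
  simp only [e0, e1] at h
  exact h

end Pool.Agent.J4H30.WR
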